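import Pool.Agent.Sigma57.Room

namespace Pool.Agent.Results.MP_a4c7a5_al.RoomyPGroups

open Pool.Agent.Sigma57

universe u v

/-- Let `p` be a prime and `G₁` a finite `p`-group such that any two elements of `G₁` which do
not generate `G₁` are centralised by an element `w` with `w ^ p = 1` outside the subgroup
generated by them. Then every isomorphism of independence complexes from `G₁` to any group `G₂`
maps the subgroups of `G₁` bijectively onto the subgroups of `G₂`; in particular the subgroup
lattices are isomorphic by an index preserving isomorphism. The direct product of any nontrivial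
finite `p`-group and `C_p × C_p` is such a group. -/
theorem result (p : ℕ) [Fact p.Prime] :
    (∀ (G₁ : Type u) (G₂ : Type v) [Group G₁] [Group G₂] [Finite G₁],
      IsPGroup p G₁ → Roomy p G₁ → ∀ φ : G₁ ≃ G₂, SigmaIso φ →
        ∃ Φ : Subgroup G₁ ≃o Subgroup G₂, ∀ H : Subgroup G₁,
          (Φ H : Set G₂) = φ '' (H : Set G₁) ∧ Nat.card (Φ H) = Nat.card H) ∧
    (∀ (G₀ : Type u) [Group G₀] [Finite G₀] [Nontrivial G₀], IsPGroup p G₀ →
      Roomy p (G₀ × Multiplicative (ZMod p) × Multiplicative (ZMod p))) :=
  ⟨fun _ _ _ _ _ hG₁ hroom φ hφ => roomy_main p hG₁ hroom φ hφ, fun G₀ _ _ _ h₀ =>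
    roomy_prod G₀ h₀⟩

end Pool.Agent.Results.MP_a4c7a5_al.RoomyPGroups
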