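import Pool.Agent.Sigma57.Three

namespace Pool.Agent.Results.MP_a4c7a5_al.ThreeGenerators

open Pool.Agent.Sigma57

universe u v

/-- Let `p ≥ 5` be a prime and `G₁` a finite `p`-group which is not generated by two elements.
Then every isomorphism of independence complexes from `G₁` to any group `G₂` maps the subgroups
of `G₁` bijectively onto the subgroups of `G₂`; in particular the subgroup lattices are
isomorphic by an index preserving isomorphism. -/
theorem result (p : ℕ) [Fact p.Prime] (hp : 5 ≤ p) (G₁ : Type u) (G₂ : Type v) [Group G₁]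
    [Group G₂] [Finite G₁] (hG₁ : IsPGroup p G₁)
    (hgen : ∀ x y : G₁, Subgroup.closure {x, y} ≠ ⊤) (φ : G₁ ≃ G₂) (hφ : SigmaIso φ) :
    ∃ Φ : Subgroup G₁ ≃o Subgroup G₂, ∀ H : Subgroup G₁,
      (Φ H : Set G₂) = φ '' (H : Set G₁) ∧ Nat.card (Φ H) = Nat.card H :=
  three_main p hp hG₁ hgen φ hφ

end Pool.Agent.Results.MP_a4c7a5_al.ThreeGenerators
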